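import Mathlib

set_option autoImplicit false

open MeasureTheory Set Filter Topology Metric

namespace Pool.Agent.Results.MP_2abcfb_lc.Gdelta

/-- Proof device: the points lying in arbitrarily short open intervals more than half of whose
measure is occupied by `M`. -/
def psi (M : Set ℝ) : Set ℝ :=
  ⋂ k : ℕ, ⋃ y : ℝ, ⋃ r : ℝ,
    ⋃ _ : 0 < r ∧ r < 1 / ((k : ℝ) + 1) ∧ ENNReal.ofReal r < volume (M ∩ closedBall y r), ball y r

theorem psi_mono {M M' : Set ℝ} (h : ∀ B : Set ℝ, volume (M ∩ B) ≤ volume (M' ∩ B)) :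
    psi M ⊆ psi M' := by
  intro x hx
  simp only [psi, mem_iInter, mem_iUnion] at hx ⊢
  intro k
  obtain ⟨y, r, ⟨h1, h2, h3⟩, h4⟩ := hx k
  exact ⟨y, r, ⟨h1, h2, h3.trans_le (h _)⟩, h4⟩

theorem half_lt {a : ENNReal} {r : ℝ} (hr : 0 < r) (h : 2⁻¹ < a / ENNReal.ofReal (2 * r)) :
    ENNReal.ofReal r < a := by
  have h0 : ENNReal.ofReal (2 * r) ≠ 0 := by simpa using hr
  rw [ENNReal.lt_div_iff_mul_lt (Or.inr (by simp)) (Or.inr (by simp)), ENNReal.ofReal_mul (by norm_num),
    ← mul_assoc] at h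
  · rwa [ENNReal.ofReal_ofNat, ENNReal.inv_mul_cancel (by simp) (by simp), one_mul] at h

theorem sub_psi (M : Set ℝ) (hM : NullMeasurableSet M volume) : volume (M \ psi M) = 0 := by
  have h := Besicovitch.ae_tendsto_measure_inter_div volume M
  rw [ae_restrict_iff'₀ hM] at h
  refine measure_mono_null (fun x hx => ?_) h
  intro hx'
  apply hx.2
  have ht := hx' hx.1
  simp only [psi, mem_iInter, mem_iUnion]
  intro k
  have h1 : ∀ᶠ r in 𝓝[>] (0 : ℝ),
      2⁻¹ < volume (M ∩ closedBall x r) / volume (closedBall x r) :=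
    ht.eventually (lt_mem_nhds (by simp))
  have h2 : ∀ᶠ r in 𝓝[>] (0 : ℝ), r < 1 / ((k : ℝ) + 1) :=
    mem_nhdsWithin_of_mem_nhds (gt_mem_nhds (by positivity))
  obtain ⟨r, ⟨hr1, hr2⟩, hr3⟩ := ((h1.and h2).and self_mem_nhdsWithin).exists
  rw [Real.volume_closedBall] at hr1
  exact ⟨x, r, ⟨hr3, hr2, half_lt hr3 hr1⟩, mem_ball_self hr3⟩

theorem psi_sub (M : Set ℝ) (hM : NullMeasurableSet M volume) : volume (psi M \ M) = 0 := by
  have h := IsUnifLocDoublingMeasure.ae_tendsto_measure_inter_div.{0} volume Mᶜ 1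
  rw [ae_restrict_iff'₀ hM.compl] at h
  refine measure_mono_null (fun x hx => ?_) h
  intro hx'
  have ht := @hx' hx.2 ℕ atTop
  have hx1 := hx.1
  simp only [psi, mem_iInter, mem_iUnion] at hx1
  choose y r hr hxy using hx1
  have hlim : Tendsto r atTop (𝓝[>] 0) := by
    refine tendsto_nhdsWithin_iff.2 ⟨?_, Eventually.of_forall fun k => (hr k).1⟩
    exact squeeze_zero (fun k => (hr k).1.le) (fun k => (hr k).2.1.le)
      tendsto_one_div_add_atTop_nhds_zero_nat
  have h1 := ht y r hlim (Eventually.of_forall fun k => by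
    rw [one_mul]; exact ball_subset_closedBall (hxy k))
  obtain ⟨k, hk⟩ := (h1.eventually (lt_mem_nhds (show (2⁻¹ : ENNReal) < 1 by simp))).exists
  rw [Real.volume_closedBall] at hk
  have h2 := half_lt (hr k).1 hk
  have h3 := (hr k).2.2
  have h4 := measure_inter_add_sdiff₀ (μ := volume) (closedBall (y k) (r k)) hM
  rw [Real.volume_closedBall, inter_comm, Set.sdiff_eq, inter_comm _ Mᶜ, two_mul,
    ENNReal.ofReal_add (hr k).1.le (hr k).1.le] at h4
  exact absurd h4 (ENNReal.add_lt_add h3 h2).ne'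

theorem result : ∃ ψ : Set ℝ → Set ℝ,
    (∀ M, NullMeasurableSet M volume → IsGδ (ψ M)) ∧
    (∀ M M', NullMeasurableSet M volume → NullMeasurableSet M' volume → M ⊆ M' → ψ M ⊆ ψ M') ∧
    (∀ M, NullMeasurableSet M volume → volume (symmDiff M (ψ M)) = 0) ∧
    (∀ M M', NullMeasurableSet M volume → NullMeasurableSet M' volume →
      volume (symmDiff M M') = 0 → ψ M = ψ M') := by
  refine ⟨psi, fun M _ => ?_, fun M M' _ _ h => ?_, fun M hM => ?_, fun M M' _ _ h => ?_⟩
  · exact IsGδ.iInter_of_isOpen fun k => isOpen_iUnion fun y => isOpen_iUnion fun r =>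
      isOpen_iUnion fun _ => isOpen_ball
  · exact psi_mono fun B => measure_mono (inter_subset_inter_left _ h)
  · rw [Set.symmDiff_def]
    exact measure_union_null (sub_psi M hM) (psi_sub M hM)
  · have he : M =ᵐ[volume] M' := measure_symmDiff_eq_zero_iff.1 h
    exact Subset.antisymm
      (psi_mono fun B => (measure_congr (he.inter (ae_eq_refl B))).le)
      (psi_mono fun B => (measure_congr (he.inter (ae_eq_refl B))).ge)

end Pool.Agent.Results.MP_2abcfb_lc.Gdelta
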